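import Mathlib

/-!
# Unbounded solutions of `x_{n+1} = x_n / (C x_{n-1} + x_{n-2})`

For every `C > 0` there are positive initial values whose solution is unbounded.

The logarithms `X_n` satisfy `X_{n+1} = X_n - max (X_{n-1}, X_{n-2})` up to a bounded error. Starting
from a triple `(X_n, X_{n+1}, X_{n+2}) = (-β, u - β, u)` with `u, β > 0` the limit system
returns after seven or eight steps to a triple of the same form, with `(u, β)` replaced by
`(u+β, 2β-u)` if `u ≤ β` and by `(2u-β, u+β)` if `u > β`. Both maps multiply `u + β` by at least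
`3/2`, which is stable under bounded errors if `u + β` is large.
-/

set_option autoImplicit false

namespace Pool.Agent.Results.MP_2553b2_an.UnboundedSolutions

/-- `x` is a positive solution of `x_{n+1} = x_n / (C x_{n-1} + x_{n-2})`; the term with index
`m ≥ -2` of the problem is `x (m + 2)` here. -/
def IsPositiveSolution (C : ℝ) (x : ℕ → ℝ) : Prop :=
  (∀ m, 0 < x m) ∧ ∀ n : ℕ, x (n + 3) = x (n + 2) / (C * x (n + 1) + x n)

/-- the return map, with errors -/
theorem step (L : ℝ) (hL : 0 ≤ L) (X : ℕ → ℝ)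
    (h : ∀ n, |X (n + 3) - (X (n + 2) - max (X (n + 1)) (X n))| ≤ L) (n : ℕ)
    (hb : 100 * L ≤ -X n) (hu : 100 * L ≤ X (n + 2))
    (hd : |X (n + 2) - X (n + 1) + X n| ≤ 4 * L)
    (hS : 400 * L ≤ X (n + 2) - X n) :
    ∃ m : ℕ, 100 * L ≤ -X m ∧ 100 * L ≤ X (m + 2) ∧ |X (m + 2) - X (m + 1) + X m| ≤ 4 * L ∧
      3 / 2 * (X (n + 2) - X n) - 100 * L ≤ X (m + 2) - X m := by
  have hd' := abs_le.1 hd
  have e3 := abs_le.1 (h n)
  have e4 := abs_le.1 (h (n + 1))
  have e5 := abs_le.1 (h (n + 2))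
  have e6 := abs_le.1 (h (n + 3))
  have e7 := abs_le.1 (h (n + 4))
  have e8 := abs_le.1 (h (n + 5))
  have e9 := abs_le.1 (h (n + 6))
  have e10 := abs_le.1 (h (n + 7))
  simp only [add_assoc, Nat.reduceAdd] at e3 e4 e5 e6 e7 e8 e9 e10
  rw [max_eq_left (by linarith [hd'.1, hd'.2])] at e3
  rw [max_eq_left (by linarith [hd'.1, hd'.2])] at e4
  rcases le_total (X (n + 1)) 0 with hδ | hδ
  · -- case 1
    have m5 : X (n + 3) ≤ max (X (n + 3)) (X (n + 2)) := le_max_left _ _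
    have m5' : max (X (n + 3)) (X (n + 2)) ≤ X (n + 3) + L := max_le (by linarith) (by linarith [e3.1])
    rw [max_eq_right (by linarith [hd'.1, hd'.2, e3.1, e3.2, e4.1, e4.2])] at e6
    rw [max_eq_right (by linarith [hd'.1, hd'.2, e3.1, e3.2, e4.1, e4.2, e5.1, e5.2])] at e7
    rw [max_eq_right (by linarith [hd'.1, hd'.2, e3.1, e3.2, e4.1, e4.2, e5.1, e5.2, e6.1, e6.2])] at e8
    have m9 : X (n + 6) ≤ max (X (n + 7)) (X (n + 6)) := le_max_right _ _
    have m9' : max (X (n + 7)) (X (n + 6)) ≤ X (n + 6) + 3 * L :=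
      max_le (by linarith [hd'.1, hd'.2, e3.1, e3.2, e4.1, e4.2, e5.1, e5.2, e6.1, e6.2, e7.1, e7.2]) (by linarith)
    rw [max_eq_left (by linarith [hd'.1, hd'.2, e3.1, e3.2, e4.1, e4.2, e5.1, e5.2, e6.1, e6.2, e7.1, e7.2,
      e8.1, e8.2])] at e10
    refine ⟨n + 8, ?_, ?_, ?_, ?_⟩
    · linarith [hd'.1, hd'.2, e3.1, e3.2, e4.1, e4.2, e5.1, e5.2, e6.1, e6.2, e7.1, e7.2, e8.1, e8.2]
    · simp only [add_assoc, Nat.reduceAdd]
      linarith [hd'.1, hd'.2, e3.1, e3.2, e4.1, e4.2, e5.1, e5.2, e6.1, e6.2, e7.1, e7.2, e8.1, e8.2,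
        e9.1, e9.2, e10.1, e10.2]
    · simp only [add_assoc, Nat.reduceAdd]
      rw [abs_le]
      constructor <;> linarith [e10.1, e10.2]
    · simp only [add_assoc, Nat.reduceAdd]
      linarith [hd'.1, hd'.2, e3.1, e3.2, e4.1, e4.2, e5.1, e5.2, e6.1, e6.2, e7.1, e7.2, e8.1, e8.2,
        e9.1, e9.2, e10.1, e10.2]
  · -- case 2
    have m5 : X (n + 2) ≤ max (X (n + 3)) (X (n + 2)) := le_max_right _ _
    have m5' : max (X (n + 3)) (X (n + 2)) ≤ X (n + 2) + L := max_le (by linarith [e3.2]) (by linarith)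
    rw [max_eq_right (by linarith [hd'.1, hd'.2, e3.1, e3.2, e4.1, e4.2])] at e6
    rw [max_eq_right (by linarith [hd'.1, hd'.2, e3.1, e3.2, e4.1, e4.2, e5.1, e5.2])] at e7
    rw [max_eq_right (by linarith [hd'.1, hd'.2, e3.1, e3.2, e4.1, e4.2, e5.1, e5.2, e6.1, e6.2])] at e8
    have m9 : X (n + 7) ≤ max (X (n + 7)) (X (n + 6)) := le_max_left _ _
    have m9' : max (X (n + 7)) (X (n + 6)) ≤ X (n + 7) + 3 * L :=
      max_le (by linarith) (by linarith [e3.1, e3.2, e4.1, e4.2, e7.1, e7.2])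
    refine ⟨n + 7, ?_, ?_, ?_, ?_⟩
    · linarith [hd'.1, hd'.2, e3.1, e3.2, e4.1, e4.2, e5.1, e5.2, e6.1, e6.2, e7.1, e7.2]
    · simp only [add_assoc, Nat.reduceAdd]
      linarith [hd'.1, hd'.2, e3.1, e3.2, e4.1, e4.2, e5.1, e5.2, e6.1, e6.2, e7.1, e7.2, e8.1, e8.2,
        e9.1, e9.2]
    · simp only [add_assoc, Nat.reduceAdd]
      rw [abs_le]
      constructor <;> linarith [e9.1, e9.2]
    · simp only [add_assoc, Nat.reduceAdd]
      linarith [hd'.1, hd'.2, e3.1, e3.2, e4.1, e4.2, e5.1, e5.2, e6.1, e6.2, e7.1, e7.2, e8.1, e8.2,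
        e9.1, e9.2]

/-- iteration of the return map -/
theorem iter (L : ℝ) (hL : 0 < L) (X : ℕ → ℝ)
    (h : ∀ n, |X (n + 3) - (X (n + 2) - max (X (n + 1)) (X n))| ≤ L)
    (hb : 100 * L ≤ -X 0) (hu : 100 * L ≤ X 2) (hd : |X 2 - X 1 + X 0| ≤ 4 * L)
    (hS : 400 * L ≤ X 2 - X 0) (k : ℕ) :
    ∃ m : ℕ, 100 * L ≤ -X m ∧ 100 * L ≤ X (m + 2) ∧ |X (m + 2) - X (m + 1) + X m| ≤ 4 * L ∧
      (200 + 200 * (3 / 2 : ℝ) ^ k) * L ≤ X (m + 2) - X m := by
  induction k with
  | zero => exact ⟨0, hb, hu, hd, by simp only [zero_add]; linarith⟩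
  | succ k ih =>
    obtain ⟨m, h1, h2, h3, h4⟩ := ih
    have hp : (1 : ℝ) ≤ (3 / 2 : ℝ) ^ k := one_le_pow₀ (by norm_num)
    obtain ⟨m', h1', h2', h3', h4'⟩ := step L hL.le X h m h1 h2 h3 (by nlinarith)
    refine ⟨m', h1', h2', h3', ?_⟩
    rw [pow_succ]
    nlinarith

/-- `log (C e ^ s + e ^ t)` is `max (s, t)` up to a bounded error -/
theorem log_add (C : ℝ) (hC : 0 < C) (s t : ℝ) (L : ℝ) (hL1 : Real.log (1 + C) ≤ L) (hL2 : -Real.log C ≤ L)
    (hL : 0 ≤ L) : |Real.log (C * Real.exp s + Real.exp t) - max s t| ≤ L := by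
  have hpos : 0 < C * Real.exp s + Real.exp t := by positivity
  rw [abs_le]
  constructor
  · have h1 : Real.log C + s ≤ Real.log (C * Real.exp s + Real.exp t) := by
      have := Real.log_le_log (by positivity : 0 < C * Real.exp s) (by linarith [Real.exp_pos t] :
        C * Real.exp s ≤ C * Real.exp s + Real.exp t)
      rwa [Real.log_mul hC.ne' (Real.exp_pos _).ne', Real.log_exp] at this
    have h2 : t ≤ Real.log (C * Real.exp s + Real.exp t) := by
      rw [Real.le_log_iff_exp_le hpos]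
      have : 0 < C * Real.exp s := by positivity
      linarith
    rcases le_total s t with h | h
    · rw [max_eq_right h]; linarith
    · rw [max_eq_left h]; linarith
  · have h3 : C * Real.exp s + Real.exp t ≤ (1 + C) * Real.exp (max s t) := by
      have h4 : Real.exp t ≤ Real.exp (max s t) := Real.exp_le_exp.2 (le_max_right _ _)
      have h5 : Real.exp s ≤ Real.exp (max s t) := Real.exp_le_exp.2 (le_max_left _ _)
      nlinarith
    have h6 := Real.log_le_log hpos h3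
    rw [Real.log_mul (by positivity) (Real.exp_pos _).ne', Real.log_exp] at h6
    linarith

/-- **Unbounded solutions.** For every `C > 0` the equation `x_{n+1} = x_n / (C x_{n-1} + x_{n-2})` has a
positive solution which is unbounded. -/
theorem result : ∀ C : ℝ, 0 < C → ∃ x : ℕ → ℝ, IsPositiveSolution C x ∧ ∀ B : ℝ, ∃ m, B < x m := by
  intro C hC
  obtain ⟨L, hLdef⟩ : ∃ L, L = Real.log (1 + C) + |Real.log C| + 1 := ⟨_, rfl⟩
  have hlog1 : 0 ≤ Real.log (1 + C) := Real.log_nonneg (by linarith)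
  have hL0 : 0 < L := by
    have := abs_nonneg (Real.log C); linarith
  have hL1 : Real.log (1 + C) ≤ L := by
    have := abs_nonneg (Real.log C); linarith
  have hL2 : -Real.log C ≤ L := by
    have := neg_le_abs (Real.log C); linarith
  -- the solution
  let st : ℕ → ℝ × ℝ × ℝ := fun n => Nat.rec (Real.exp (-(200 * L)), 1, Real.exp (200 * L))
    (fun _ s => (s.2.1, s.2.2, s.2.2 / (C * s.2.1 + s.1))) n
  let x : ℕ → ℝ := fun n => (st n).1
  have hrec : ∀ n, x (n + 3) = x (n + 2) / (C * x (n + 1) + x n) := fun n => rfl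
  have hpos3 : ∀ n, 0 < x n ∧ 0 < x (n + 1) ∧ 0 < x (n + 2) := by
    intro n
    induction n with
    | zero => exact ⟨Real.exp_pos _, one_pos, Real.exp_pos _⟩
    | succ n ih =>
      refine ⟨ih.2.1, ih.2.2, ?_⟩
      rw [show n + 1 + 2 = n + 3 by ring, hrec]
      exact div_pos ih.2.2 (add_pos (mul_pos hC ih.2.1) ih.1)
  have hpos : ∀ n, 0 < x n := fun n => (hpos3 n).1
  refine ⟨x, ⟨hpos, hrec⟩, ?_⟩
  -- the logarithms
  have hX : ∀ n, |Real.log (x (n + 3)) - (Real.log (x (n + 2)) - max (Real.log (x (n + 1))) (Real.log (x n)))| ≤ L := by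
    intro n
    have h1 := log_add C hC (Real.log (x (n + 1))) (Real.log (x n)) L hL1 hL2 hL0.le
    rw [Real.exp_log (hpos (n + 1)), Real.exp_log (hpos n)] at h1
    have hden : 0 < C * x (n + 1) + x n := add_pos (mul_pos hC (hpos (n + 1))) (hpos n)
    rw [hrec, Real.log_div (hpos (n + 2)).ne' hden.ne']
    rw [abs_sub_comm] at h1
    rw [show Real.log (x (n + 2)) - Real.log (C * x (n + 1) + x n) -
      (Real.log (x (n + 2)) - max (Real.log (x (n + 1))) (Real.log (x n))) =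
      max (Real.log (x (n + 1))) (Real.log (x n)) - Real.log (C * x (n + 1) + x n) by ring]
    exact h1
  have hX0 : Real.log (x 0) = -(200 * L) := Real.log_exp _
  have hX1 : Real.log (x 1) = 0 := Real.log_one
  have hX2 : Real.log (x 2) = 200 * L := Real.log_exp _
  intro B
  obtain ⟨k, hk⟩ : ∃ k : ℕ, B < (3 / 2 : ℝ) ^ k := pow_unbounded_of_one_lt B (by norm_num)
  obtain ⟨m, h1, h2, h3, h4⟩ := iter L hL0 (fun n => Real.log (x n)) hX (by simp only [hX0]; linarith)
    (by simp only [hX2]; linarith) (by simp only [hX0, hX1, hX2]; rw [abs_le]; constructor <;> linarith)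
    (by simp only [hX0, hX2]; linarith) k
  have e3 := abs_le.1 (hX m)
  have h3' := abs_le.1 h3
  rw [max_eq_left (by linarith [h3'.1, h3'.2])] at e3
  have hp : (1 : ℝ) ≤ (3 / 2 : ℝ) ^ k := one_le_pow₀ (by norm_num)
  have hL1' : 1 ≤ L := by
    have := abs_nonneg (Real.log C); linarith
  have h5 : (3 / 2 : ℝ) ^ k ≤ (3 / 2 : ℝ) ^ k * L := by nlinarith
  have h6 : (3 / 2 : ℝ) ^ k ≤ Real.log (x (m + 2)) ∨ (3 / 2 : ℝ) ^ k ≤ Real.log (x (m + 3)) := by
    by_contra hcon
    push Not at hcon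
    linarith [h3'.1, h3'.2, e3.1, e3.2, hcon.1, hcon.2]
  rcases h6 with h6 | h6
  · have h7 := Real.log_le_sub_one_of_pos (hpos (m + 2))
    exact ⟨m + 2, by linarith⟩
  · have h7 := Real.log_le_sub_one_of_pos (hpos (m + 3))
    exact ⟨m + 3, by linarith⟩

end Pool.Agent.Results.MP_2553b2_an.UnboundedSolutions
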